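import Pool.Agent.H26.REM.Targets2
import Pool.Agent.H26.REM.Targets3

/-!
# Board rcl_modules, row ADI: the inertia group at a prime dividing the order of the root of unity
-/

set_option autoImplicit false

namespace Pool.Agent.H86.REM.ADI

open NumberField Height Finset Polynomial
open Pool.Agent.H26.REM

/-- the elements of absolute value at most one -/
def ring1 {M : Type} [Field M] (v : AbsoluteValue M ℝ) (hv : IsNonarchimedean v) : Subring M where
  carrier := {x | v x ≤ 1}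
  mul_mem' := by
    intro a b ha hb
    change v (a * b) ≤ 1
    rw [map_mul]
    exact mul_le_one₀ ha (apply_nonneg v _) hb
  one_mem' := by
    change v 1 ≤ 1
    rw [map_one]
  add_mem' := by
    intro a b ha hb
    exact (hv a b).trans (max_le ha hb)
  zero_mem' := by
    change v 0 ≤ 1
    rw [map_zero]
    exact zero_le_one
  neg_mem' := by
    intro a ha
    change v (-a) ≤ 1
    rw [v.map_neg]
    exact ha

theorem near1 {M : Type} [Field M] (v : AbsoluteValue M ℝ) (hv : IsNonarchimedean v) (p : ℕ)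
    (hp : p.Prime) (x x' : M) (hx : v x ≤ 1) (hx' : v x' ≤ 1)
    (h : v (x' - x) ≤ v (p : M) ^ (1 / (p : ℝ))) : v (x' ^ p - x ^ p) ≤ v (p : M) := by
  obtain ⟨R, hR⟩ : ∃ R : Subring M, R = ring1 v hv := ⟨_, rfl⟩
  have hmem : ∀ z : M, z ∈ R ↔ v z ≤ 1 := by
    intro z
    rw [hR]
    rfl
  have hxR : x ∈ R := (hmem x).mpr hx
  have hxR' : x' ∈ R := (hmem x').mpr hx'
  obtain ⟨s, hs⟩ := exists_add_pow_prime_eq hp (⟨x, hxR⟩ : R) (⟨x', hxR'⟩ - ⟨x, hxR⟩)
  rw [add_sub_cancel] at hs
  have hs2 := congrArg (fun z : R => (z : M)) hs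
  simp only [SubmonoidClass.coe_pow, Subring.coe_add, Subring.coe_mul, AddSubgroupClass.coe_sub,
    SubringClass.coe_natCast] at hs2
  have h1 : x' ^ p - x ^ p = (x' - x) ^ p +
      p * (((⟨x, hxR⟩ : R) * (⟨x', hxR'⟩ - ⟨x, hxR⟩) * s : R) : M) := by
    rw [hs2]
    simp only [Subring.coe_mul, AddSubgroupClass.coe_sub]
    ring
  have h0 : 0 ≤ v (p : M) := apply_nonneg v _
  have hp0 : (p : ℝ) ≠ 0 := by exact_mod_cast hp.ne_zero
  rw [h1]
  refine (hv _ _).trans (max_le ?_ ?_)
  · rw [map_pow]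
    calc v (x' - x) ^ p ≤ (v (p : M) ^ (1 / (p : ℝ))) ^ p :=
          pow_le_pow_left₀ (apply_nonneg v _) h p
      _ = v (p : M) := by
          rw [← Real.rpow_natCast, ← Real.rpow_mul h0, one_div, inv_mul_cancel₀ hp0, Real.rpow_one]
  · rw [map_mul]
    calc v (p : M) * v (((⟨x, hxR⟩ : R) * (⟨x', hxR'⟩ - ⟨x, hxR⟩) * s : R) : M) ≤ v (p : M) * 1 :=
          mul_le_mul_of_nonneg_left ((hmem _).mp (Subtype.property _)) h0
      _ = v (p : M) := mul_one _

theorem near2 {M : Type} [Field M] (v : AbsoluteValue M ℝ) (hv : IsNonarchimedean v) (p : ℕ)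
    (hp : p.Prime) (x x' : M) (hx0 : x ≠ 0) (hx0' : x' ≠ 0) (hvx : v x' = v x)
    (h1 : v x ≤ 1 → v (x' - x) ≤ v (p : M) ^ (1 / (p : ℝ)))
    (h2 : v x⁻¹ ≤ 1 → v (x'⁻¹ - x⁻¹) ≤ v (p : M) ^ (1 / (p : ℝ))) :
    v (x' ^ p - x ^ p) ≤ v (p : M) * (max (v x) 1 ^ p * max (v x') 1 ^ p) := by
  have h0 : 0 ≤ v (p : M) := apply_nonneg v _
  rcases le_total (v x) 1 with h | h
  · have h3 := near1 v hv p hp x x' h (by rw [hvx]; exact h) (h1 h)
    refine h3.trans ?_
    have h4 : (1 : ℝ) ≤ max (v x) 1 ^ p * max (v x') 1 ^ p := by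
      have h5 : (1 : ℝ) ≤ max (v x) 1 ^ p := one_le_pow₀ (le_max_right _ _)
      have h6 : (1 : ℝ) ≤ max (v x') 1 ^ p := one_le_pow₀ (le_max_right _ _)
      nlinarith
    nlinarith
  · have h4 : v x⁻¹ ≤ 1 := by
      rw [map_inv₀]
      exact inv_le_one_of_one_le₀ h
    have h4' : v x'⁻¹ ≤ 1 := by
      rw [map_inv₀, hvx]
      exact inv_le_one_of_one_le₀ h
    have h3 := near1 v hv p hp x⁻¹ x'⁻¹ h4 h4' (h2 h4)
    have h5 : x' ^ p - x ^ p = -((x'⁻¹ ^ p - x⁻¹ ^ p) * (x ^ p * x' ^ p)) := by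
      rw [inv_pow, inv_pow]
      have h6 : x ^ p ≠ 0 := pow_ne_zero _ hx0
      have h7 : x' ^ p ≠ 0 := pow_ne_zero _ hx0'
      field_simp
      ring
    rw [h5, v.map_neg, map_mul, map_mul, map_pow v x, map_pow v x']
    refine mul_le_mul h3 ?_ (by positivity) h0
    refine mul_le_mul ?_ ?_ (by positivity) (by positivity)
    · exact pow_le_pow_left₀ (apply_nonneg v _) (le_max_left _ _) p
    · exact pow_le_pow_left₀ (apply_nonneg v _) (le_max_left _ _) p

end Pool.Agent.H86.REM.ADI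

namespace Pool.Agent.H86.REM

open NumberField Height Finset Polynomial
open Pool.Agent.H26.REM

theorem pf_ADI (hLFT : T_LFT) (hGQP : T_GQP) (hVIS : Pool.Agent.H29.LG.T_VIS)
    (hPF : Pool.Agent.H24.RD.T_PF) (hHA : Pool.Agent.H24.RD.T_HA) (hHB : Pool.Agent.H24.RD.T_HB)
    (hVB : Pool.Agent.H24.RD.T_VB) (hFLD : Pool.Agent.H29.SX.T_FLD) : T_ADI := by
  classical
  intro Ω _ _ _ _ r m a N ζ θ hLev p hp hp3 hpm hpa β hβ γ k e hk hγ hβ0 hsmall τ hτζ hτθ
  by_contra hne
  obtain ⟨n', hn'⟩ : ∃ n' : ℕ, n' = ∏ i, N i := ⟨_, rfl⟩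
  have hn0 : 0 < n' := by
    rw [hn']
    exact Finset.prod_pos fun i _ => hLev.N0 i
  have hpn : ¬ p ∣ n' := by
    rw [hn']
    intro h
    obtain ⟨i, -, hi⟩ := (Prime.dvd_finsetProd_iff hp.prime _).mp h
    have h1 := Nat.dvd_gcd hpm hi
    rw [hLev.copm i] at h1
    exact hp.one_lt.ne' (Nat.dvd_one.mp h1)
  obtain ⟨τ', hτ1, hτ2⟩ := hLFT Ω r m a N ζ θ hLev p hp hpm hpa τ hτζ hτθ
  rw [← hn'] at hτ2
  have hm0 := hLev.m0
  have hmn : 0 < m * n' := Nat.mul_pos hm0 hn0
  -- a large number field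
  obtain ⟨s, hs⟩ : ∃ s : Finset Ω, s = (nthRoots (m * n') (1 : Ω)).toFinset ∪
    (Finset.univ.biUnion fun i => (nthRoots n' ((a i : ℚ) : Ω)).toFinset) ∪ {γ, β, τ β} :=
    ⟨_, rfl⟩
  obtain ⟨M, hMf, -, hsM, -⟩ := hFLD ℚ Ω ⊥ inferInstance s
  have : NumberField M := NumberField.of_module_finite ℚ M
  have hLvM : Pool.Agent.H24.RD.Lv ℚ Ω a (m * n') n' ≤ M := by
    unfold Pool.Agent.H24.RD.Lv
    rw [IntermediateField.adjoin_le_iff]
    rintro z (hz | ⟨i, hz⟩)
    · apply hsM
      rw [hs]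
      simp only [Finset.mem_union, Multiset.mem_toFinset, mem_nthRoots hmn]
      exact Or.inl (Or.inl hz)
    · apply hsM
      rw [hs]
      simp only [Finset.mem_union, Finset.mem_biUnion, Multiset.mem_toFinset, mem_nthRoots hn0]
      exact Or.inl (Or.inr ⟨i, Finset.mem_univ i, hz⟩)
  have hγM : γ ∈ M := hsM γ (by rw [hs]; simp)
  have hβM : β ∈ M := hsM β (by rw [hs]; simp)
  have hτM : τ β ∈ M := hsM (τ β) (by rw [hs]; simp)
  -- β is in the level field
  have hβL : β ∈ Pool.Agent.H24.RD.Lv ℚ Ω a (m * n') n' := by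
    have h1 : IntermediateField.adjoin ℚ (insert ζ (Set.range θ)) ≤
        Pool.Agent.H24.RD.Lv ℚ Ω a (m * n') n' := by
      rw [IntermediateField.adjoin_le_iff]
      rintro z (rfl | ⟨i, rfl⟩)
      · apply IntermediateField.subset_adjoin
        left
        rw [pow_mul, hLev.prim.pow_eq_one, one_pow]
      · obtain ⟨z, hz⟩ := IsAlgClosed.exists_pow_nat_eq ((a i : ℚ) : Ω) hn0
        obtain ⟨d, hd⟩ : N i ∣ n' := by
          rw [hn']
          exact Finset.dvd_prod_of_mem N (Finset.mem_univ i)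
        have hzL : z ∈ Pool.Agent.H24.RD.Lv ℚ Ω a (m * n') n' := by
          apply IntermediateField.subset_adjoin
          right
          exact ⟨i, hz⟩
        have hz0 : z ≠ 0 := by
          intro h
          rw [h, zero_pow hn0.ne'] at hz
          exact hLev.nz i (by exact_mod_cast hz.symm)
        have hω : (θ i / z ^ d) ∈ Pool.Agent.H24.RD.Lv ℚ Ω a (m * n') n' := by
          apply IntermediateField.subset_adjoin
          left
          have h2 : (θ i / z ^ d) ^ N i = 1 := by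
            rw [div_pow, hLev.pow i, ← pow_mul, mul_comm d, ← hd, hz]
            exact div_self (by exact_mod_cast hLev.nz i)
          rw [hd, ← mul_assoc, mul_comm m, mul_assoc, pow_mul, h2, one_pow]
        have h3 : θ i = (θ i / z ^ d) * z ^ d := by
          rw [div_mul_cancel₀]
          exact pow_ne_zero _ hz0
        rw [h3]
        exact mul_mem hω (pow_mem hzL d)
    exact h1 hβ
  obtain ⟨x, hx⟩ : ∃ x : M, (x : Ω) = β := ⟨⟨β, hβM⟩, rfl⟩
  obtain ⟨x', hx'⟩ : ∃ x' : M, (x' : Ω) = τ β := ⟨⟨τ β, hτM⟩, rfl⟩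
  obtain ⟨g, hg⟩ : ∃ g : M, (g : Ω) = γ := ⟨⟨γ, hγM⟩, rfl⟩
  have hτβ0 : τ β ≠ 0 := by
    intro h
    exact hβ0 ((map_eq_zero τ).mp h)
  have hx0 : x ≠ 0 := by
    rintro rfl
    exact hβ0 (by rw [← hx]; rfl)
  have hx0' : x' ≠ 0 := by
    rintro rfl
    exact hτβ0 (by rw [← hx']; rfl)
  have hτ'β : τ' β = τ β := hτ1 β hβ
  have hgk : g ^ k = ∏ i, ((a i : ℚ) : M) ^ e i := by
    apply Subtype.ext
    change algebraMap M Ω (g ^ k) = algebraMap M Ω (∏ i, ((a i : ℚ) : M) ^ e i)
    rw [map_pow, map_prod]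
    simp only [map_zpow₀, map_ratCast]
    change (g : Ω) ^ k = _
    rw [hg, hγ]
  have hg0 : g ≠ 0 := by
    rintro rfl
    rw [zero_pow hk.ne'] at hgk
    have := Finset.prod_ne_zero_iff.mpr
      (fun i (_ : i ∈ (Finset.univ : Finset (Fin r))) => zpow_ne_zero (e i)
        (show ((a i : ℚ) : M) ≠ 0 by exact_mod_cast hLev.nz i))
    exact this hgk.symm
  have hgood := hGQP r a hLev.nz p hp hpa
  -- local estimates
  have hloc : ∀ v : FinitePlace M, v.1 (p : M) < 1 → v.1 g = 1 ∧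
      v.1 (x' ^ p - x ^ p) ≤ v.1 (p : M) * (max (v.1 x) 1 ^ p * max (v.1 x') 1 ^ p) := by
    intro v hv
    obtain ⟨hna, -, -, hv1, -, -, -⟩ := hVB M p hp v hv
    constructor
    · have h1 : ∀ z : ℤ, ¬ (p : ℤ) ∣ z → v.1 (z : M) = 1 := by
        intro z hz
        have h2 := hv1 z.natAbs (by rwa [← Int.natCast_dvd_natCast, Int.dvd_natAbs])
        rcases Int.natAbs_eq z with h3 | h3
        · rw [h3, Int.cast_natCast]
          exact h2
        · rw [h3, Int.cast_neg, Int.cast_natCast, v.1.map_neg]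
          exact h2
      have h4 : ∀ i, v.1 ((a i : ℚ) : M) = 1 := by
        intro i
        have h5 := hpa i
        have h6 : ¬ (p : ℤ) ∣ (a i).num ∧ ¬ p ∣ (a i).den := by
          have h7 : (a i).num ≠ 0 := Rat.num_ne_zero.mpr (hLev.nz i)
          have := Fact.mk hp
          unfold padicValRat at h5
          have h8 : padicValInt p (a i).num = padicValNat p (a i).den := by
            exact_mod_cast sub_eq_zero.mp h5
          have hcop := (a i).reduced
          constructor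
          · intro h9
            have h10 : p ∣ (a i).num.natAbs := Int.natCast_dvd.mp h9
            have h11 : padicValInt p (a i).num ≠ 0 := by
              unfold padicValInt
              exact (dvd_iff_padicValNat_ne_zero (Int.natAbs_ne_zero.mpr h7)).mp h10
            have h12 : p ∣ (a i).den := by
              rw [dvd_iff_padicValNat_ne_zero (a i).den_ne_zero, ← h8]
              exact h11
            have h13 := Nat.dvd_gcd h10 h12
            rw [hcop] at h13
            exact hp.one_lt.ne' (Nat.dvd_one.mp h13)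
          · intro h12
            have h11 : padicValInt p (a i).num ≠ 0 := by
              rw [h8]
              exact (dvd_iff_padicValNat_ne_zero (a i).den_ne_zero).mp h12
            have h10 : p ∣ (a i).num.natAbs := by
              rw [dvd_iff_padicValNat_ne_zero (Int.natAbs_ne_zero.mpr h7)]
              exact h11
            have h13 := Nat.dvd_gcd h10 h12
            rw [hcop] at h13
            exact hp.one_lt.ne' (Nat.dvd_one.mp h13)
        have h7 : ((a i : ℚ) : M) = ((a i).num : M) / ((a i).den : M) := Rat.cast_def _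
        rw [h7, map_div₀, h1 _ h6.1, hv1 _ h6.2, div_one]
      have h5 : v.1 g ^ k = 1 := by
        rw [← map_pow, hgk, map_prod]
        refine Finset.prod_eq_one fun i _ => ?_
        rw [map_zpow₀, h4, one_zpow]
      exact (pow_eq_one_iff_of_nonneg (apply_nonneg v.1 _) hk.ne').mp h5
    · have h1 := hVIS ℚ Ω r a hLev.nz p hgood (m * n') n' hmn (Dvd.intro_left m rfl) hpn
        (hpm.mul_right n') τ' hτ2 M hLvM v hv
      obtain ⟨h2, h3⟩ := h1 x x' (by rw [hx]; exact hβL) (by rw [hx, hx', hτ'β])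
      obtain ⟨h4, h5⟩ := h1 x⁻¹ x'⁻¹
        (by
          push_cast
          rw [hx]
          exact inv_mem hβL)
        (by
          push_cast
          rw [hx, hx', map_inv₀, hτ'β])
      exact ADI.near2 v.1 hna p hp x x' hx0 hx0' h2 h3 h5
  -- the product formula
  have hUW : (x * g) ^ p ≠ (x' * g) ^ p := by
    intro h
    rw [mul_pow, mul_pow] at h
    have h1 := mul_right_cancel₀ (pow_ne_zero p hg0) h
    apply hne
    rw [← hx', ← hx]
    exact_mod_cast (congrArg (fun z : M => (z : Ω)) h1).symm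
  have hpf := hPF M p hp Unit (fun _ => (x * g) ^ p) (fun _ => (x' * g) ^ p) (fun _ => hUW) 1 (by
    intro v hv
    refine ⟨(), ?_⟩
    obtain ⟨h1, h2⟩ := hloc v hv
    have h3 : (x * g) ^ p - (x' * g) ^ p = -((x' ^ p - x ^ p) * g ^ p) := by ring
    have h4 : ∀ z : M, max (v.1 ((z * g) ^ p)) 1 = max (v.1 z) 1 ^ p := by
      intro z
      rw [map_pow, map_mul, h1, mul_one]
      rcases le_total (v.1 z) 1 with h5 | h5
      · rw [max_eq_right h5, one_pow, max_eq_right (pow_le_one₀ (apply_nonneg v.1 _) h5)]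
      · rw [max_eq_left h5, max_eq_left (one_le_pow₀ h5)]
    rw [h3, v.1.map_neg, map_mul, map_pow v.1 g, h1, one_pow, mul_one, pow_one, h4, h4]
    exact h2)
  simp only [Finset.univ_unique, Finset.sum_singleton, Fintype.card_unit, Nat.cast_one, one_mul,
    logHeight₁_pow] at hpf
  obtain ⟨D, hD⟩ : ∃ D : ℝ, D = (Module.finrank ℚ M : ℝ) := ⟨_, rfl⟩
  have hD0 : 0 < D := by
    rw [hD]
    exact_mod_cast Module.finrank_pos
  have hh1 := hHA M Ω (x * g)
  have hh2 := hHA M Ω (x' * g)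
  have he1 : algebraMap M Ω (x * g) = β * γ := by
    change ((x * g : M) : Ω) = _
    push_cast
    rw [hx, hg]
  have he2 : algebraMap M Ω (x' * g) = τ β * γ := by
    change ((x' * g : M) : Ω) = _
    push_cast
    rw [hx', hg]
  rw [he1] at hh1
  rw [he2] at hh2
  rw [← hD] at hh1 hh2 hpf
  obtain ⟨hB1, hB2, hB3, hB4, hB5, hB6, hB7⟩ := hHB Ω
  have hheq : absLogHeight₁ (τ β * γ) = absLogHeight₁ (β * γ) := by
    have h1 : (τ β * γ) ^ k = τ ((β * γ) ^ k) := by
      rw [mul_pow, mul_pow, map_mul, map_pow, hγ, map_prod]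
      congr 1
      refine Finset.prod_congr rfl fun i _ => ?_
      rw [map_zpow₀, map_ratCast]
    have h2 := hB4 (τ β * γ) k
    have h3 := hB4 (β * γ) k
    have h4 := hB6 (τ : Ω ≃+* Ω) ((β * γ) ^ k)
    rw [h1] at h2
    have h5 : (k : ℝ) * absLogHeight₁ (τ β * γ) = k * absLogHeight₁ (β * γ) := by
      rw [← h2, ← h3]
      exact h4
    exact mul_left_cancel₀ (by exact_mod_cast hk.ne') h5
  have hL1 : logHeight₁ (x * g) = D * absLogHeight₁ (β * γ) := by
    rw [hh1]
    field_simp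
  have hL2 : logHeight₁ (x' * g) = D * absLogHeight₁ (β * γ) := by
    rw [← hheq, hh2]
    field_simp
  rw [hL1, hL2] at hpf
  have hp0 : (0 : ℝ) < p := by exact_mod_cast hp.pos
  have hlog : Real.log (p / 2) = Real.log p - Real.log 2 := Real.log_div hp0.ne' (by norm_num)
  rw [lt_div_iff₀ (by positivity), hlog] at hsmall
  have h6 : D * (Real.log p - Real.log 2) ≤ D * (absLogHeight₁ (β * γ) * (2 * p)) := by
    refine hpf.trans_eq ?_
    ring
  have h7 := le_of_mul_le_mul_left h6 hD0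
  exact absurd hsmall (not_lt.mpr h7)

end Pool.Agent.H86.REM
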