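import Pool.Agent.H26.REM.Targets

/-!
# Board rcl_modules, row CYD: primes which do not divide the order are unramified
-/

set_option autoImplicit false

namespace Pool.Agent.H86.REM

open NumberField Height Finset Polynomial
open Pool.Agent.H26.REM

theorem pf_CYD : T_CYD := by
  intro M _ _ m ζ hm hζ q hq hqm hdvd
  have : NeZero m := ⟨hm.ne'⟩
  have hc := hζ.intermediateField_adjoin_isCyclotomicExtension ℚ
  have h1 := @IsCyclotomicExtension.Rat.natAbs_discr m (IntermediateField.adjoin ℚ {ζ}) _ _ _ hc
  have h2 : q ∣ (discr (IntermediateField.adjoin ℚ {ζ})).natAbs := Int.natCast_dvd.mp hdvd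
  rw [h1] at h2
  have h3 := Nat.div_dvd_of_dvd (Nat.prod_primeFactors_pow_totient_ediv_dvd hm)
  exact hqm (hq.dvd_of_dvd_pow (h2.trans h3))

end Pool.Agent.H86.REM
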