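import Pool.Agent.H26.REM.Targets4

/-!
# Board rcl_modules, row DSK: the discriminant of a field generated by radicals
-/

set_option autoImplicit false

namespace Pool.Agent.H86.REM.DSK

open NumberField Height Finset Polynomial
open Pool.Agent.H26.REM

theorem gen_top0 (F M : Type) [Field F] [Field M] [Algebra F M] (π : M) :
    IntermediateField.adjoin F {IntermediateField.AdjoinSimple.gen F π} = ⊤ := by
  apply IntermediateField.map_injective (IntermediateField.adjoin F {π}).val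
  rw [IntermediateField.adjoin_map, Set.image_singleton, ← AlgHom.fieldRange_eq_map,
    IntermediateField.fieldRange_val]
  rfl

theorem trans_top (E : Type) [Field E] (i1 i2 : Algebra ℚ E) (x : E)
    (h : @IntermediateField.adjoin ℚ _ E _ i1 {x} = ⊤) :
    @IntermediateField.adjoin ℚ _ E _ i2 {x} = ⊤ := by
  have := Subsingleton.elim i1 i2
  subst this
  exact h

theorem gen_top (M : Type) [Field M] [NumberField M] (π : M) :
    IntermediateField.adjoin ℚ {IntermediateField.AdjoinSimple.gen ℚ π} = ⊤ :=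
  trans_top _ _ _ _ (gen_top0 ℚ M π)

theorem fr_tow (M : Type) [Field M] [NumberField M] (π : M) :
    Module.finrank ℚ (IntermediateField.adjoin ℚ {π}) *
      Module.finrank (IntermediateField.adjoin ℚ {π}) M = Module.finrank ℚ M :=
  Module.finrank_mul_finrank ℚ (IntermediateField.adjoin ℚ {π}) M

/-- one prime of one level -/
theorem one (hPIE : T_PIE) (hEIS : T_EIS) (hTOW : T_TOW) (M : Type) [Field M] [NumberField M]
    (x : ℚ) (n q k : ℕ) (θ : M) (hx : x ≠ 0) (hq : q.Prime) (hk : 1 ≤ k) (hd : q ^ k ∣ n)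
    (hn : 0 < n) (hθ : θ ^ n = (x : M)) (hg : Good q x) :
    q ^ (k * Module.finrank ℚ M) ∣ (discr M).natAbs := by
  obtain ⟨A, π, -, hπ, hA⟩ := hPIE M x n q k θ hx hq hk hd hn hθ hg
  have hgen : (IntermediateField.AdjoinSimple.gen ℚ π) ^ (q ^ k) =
      ((A : ℤ) : IntermediateField.adjoin ℚ {π}) := by
    apply Subtype.ext
    simpa using hπ
  obtain ⟨h1, h2⟩ := hEIS q k A hq hk hA (IntermediateField.adjoin ℚ {π})
    (IntermediateField.AdjoinSimple.gen ℚ π) (gen_top M π) hgen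
  have h3 := hTOW (IntermediateField.adjoin ℚ {π}) M
  have h4 := fr_tow M π
  rw [h1] at h4
  have h5 : ((q : ℤ) ^ (k * q ^ k)) ^ Module.finrank (IntermediateField.adjoin ℚ {π}) M ∣
      discr M := (pow_dvd_pow_of_dvd h2 _).trans h3
  rw [← pow_mul, mul_assoc, h4] at h5
  have h6 := Int.natAbs_dvd_natAbs.mpr h5
  rwa [Int.natAbs_pow, Int.natAbs_natCast] at h6

end Pool.Agent.H86.REM.DSK

namespace Pool.Agent.H86.REM

open NumberField Height Finset Polynomial
open Pool.Agent.H26.REM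

theorem pf_DSK (hPIE : T_PIE) (hEIS : T_EIS) (hTOW : T_TOW) : T_DSK := by
  intro K M _ _ _ _ _ r a N θ ha hN hθ hcop hgood
  obtain ⟨d, hd⟩ : ∃ d : ℕ, d = (discr M).natAbs := ⟨_, rfl⟩
  obtain ⟨e, he⟩ : ∃ e : ℕ, e = (discr K).natAbs := ⟨_, rfl⟩
  obtain ⟨D, hD⟩ : ∃ D : ℕ, D = Module.finrank ℚ M := ⟨_, rfl⟩
  have hd0 : d ≠ 0 := by
    rw [hd, Int.natAbs_ne_zero]
    exact discr_ne_zero M
  have h1 : ∀ i, N i ^ D ∣ d := by
    intro i
    rw [← Nat.factorization_prime_le_iff_dvd (pow_ne_zero _ (hN i).ne') hd0]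
    intro q hq
    rw [Nat.factorization_pow, Finsupp.smul_apply, smul_eq_mul]
    by_cases hk : (N i).factorization q = 0
    · rw [hk, mul_zero]
      exact Nat.zero_le _
    · have hqN : q ∣ N i := Nat.dvd_of_factorization_pos hk
      have h2 := DSK.one hPIE hEIS hTOW M (a i) (N i) q ((N i).factorization q) (θ i) (ha i) hq
        (Nat.one_le_iff_ne_zero.mpr hk) (Nat.ordProj_dvd _ _) (hN i) (hθ i) (hgood i q hq hqN).1
      rw [← hd, ← hD, hq.pow_dvd_iff_le_factorization hd0, mul_comm] at h2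
      exact h2
  have h3 : (∏ i, N i) ^ D ∣ d := by
    rw [← Finset.prod_pow]
    refine Finset.prod_dvd_of_isRelPrime ?_ fun i _ => h1 i
    intro i _ j _ hij
    exact Nat.coprime_iff_isRelPrime.mp (Nat.Coprime.pow D D (hcop i j hij))
  have h4 : e ^ Module.finrank K M ∣ d := by
    have := Int.natAbs_dvd_natAbs.mpr (hTOW K M)
    rwa [Int.natAbs_pow, ← he, ← hd] at this
  have h5 : Nat.Coprime e (∏ i, N i) := by
    refine Nat.Coprime.prod_right fun i _ => ?_
    refine Nat.coprime_of_dvd fun q hq h6 h7 => ?_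
    refine (hgood i q hq h7).2 ?_
    rw [Int.natCast_dvd, ← he]
    exact h6
  have h6 : e ^ Module.finrank K M * (∏ i, N i) ^ D ∣ d :=
    (Nat.Coprime.pow _ _ h5).mul_dvd_of_dvd_of_dvd h4 h3
  have h7 := Nat.le_of_dvd (Nat.pos_of_ne_zero hd0) h6
  have h8 : ((e ^ Module.finrank K M * (∏ i, N i) ^ D : ℕ) : ℝ) ≤ (d : ℝ) := by exact_mod_cast h7
  have h9 : (d : ℝ) = |(discr M : ℝ)| := by
    rw [hd, Nat.cast_natAbs, Int.cast_abs]
  have h10 : (e : ℝ) = |(discr K : ℝ)| := by
    rw [he, Nat.cast_natAbs, Int.cast_abs]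
  rw [h9] at h8
  push_cast at h8
  rw [h10] at h8
  rw [← hD]
  exact h8

end Pool.Agent.H86.REM
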