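import Pool.Agent.H26.REM.Targets4

/-!
# Board rcl_modules, row LTV: the Gram determinant of a lattice given by bounds at the finite places
-/

set_option autoImplicit false

namespace Pool.Agent.H86.REM.LTV

open NumberField Height Finset Polynomial
open Pool.Agent.H26.REM

theorem GD_eq {M : Type} [Field M] [NumberField M] (w : (M →+* ℂ) → ℝ) {k : ℕ}
    (hk : k = Module.finrank ℚ M) (z : Fin k → M) :
    GD (fun i => vec M w (z i)) = (∏ s, w s) ^ 2 * |((Algebra.discr ℚ z : ℚ) : ℝ)| := by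
  classical
  obtain ⟨e⟩ : Nonempty (Fin k ≃ (M →ₐ[ℚ] ℂ)) := by
    refine ⟨Fintype.equivOfCardEq ?_⟩
    rw [Fintype.card_fin, AlgHom.card ℚ M ℂ, hk]
  obtain ⟨e', he'⟩ : ∃ e' : Fin k ≃ (M →+* ℂ), ∀ i x, e' i x = e i x :=
    ⟨e.trans (RingHom.equivRatAlgHom (R := M) (S := ℂ)).symm, fun i x => rfl⟩
  obtain ⟨X, hX⟩ : ∃ X : Matrix (Fin k) (Fin k) ℂ, X = (Algebra.embeddingsMatrixReindex ℚ ℂ z e).transpose :=
    ⟨_, rfl⟩
  have hXa : ∀ i j, X i j = e' i (z j) := by
    intro i j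
    rw [hX, he']
    rfl
  obtain ⟨V, hV⟩ : ∃ V : Matrix (Fin k) (Fin k) ℂ,
    V = Matrix.diagonal (fun i => ((w (e' i) : ℝ) : ℂ)) * X := ⟨_, rfl⟩
  have hVa : ∀ i j, V i j = (w (e' i) : ℂ) * e' i (z j) := by
    intro i j
    rw [hV, Matrix.diagonal_mul, hXa]
  have hG : Matrix.gram ℂ (fun i => vec M w (z i)) = V.conjTranspose * V := by
    ext i j
    rw [Matrix.gram_apply, Matrix.mul_apply, PiLp.inner_apply, ← Equiv.sum_comp e']
    refine Finset.sum_congr rfl fun l _ => ?_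
    rw [Matrix.conjTranspose_apply, hVa, hVa]
    simp [vec, RCLike.inner_apply]
    ring
  have hdet : Matrix.det X ^ 2 = ((Algebra.discr ℚ z : ℚ) : ℂ) := by
    rw [hX, Matrix.det_transpose, ← Algebra.discr_eq_det_embeddingsMatrixReindex_pow_two]
    rfl
  unfold GD
  rw [hG, Matrix.det_mul, Matrix.det_conjTranspose, norm_mul, norm_star, ← sq, hV, Matrix.det_mul,
    Matrix.det_diagonal, norm_mul, mul_pow, Equiv.prod_comp e' (fun s => ((w s : ℝ) : ℂ)),
    ← norm_pow (Matrix.det X), hdet]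
  congr 1
  · rw [← Complex.ofReal_prod, Complex.norm_real, Real.norm_eq_abs, sq_abs]
  · rw [← Complex.ofReal_ratCast, Complex.norm_real, Real.norm_eq_abs]

open scoped Matrix in
theorem discr_eq {M : Type} [Field M] [NumberField M] {k : ℕ} (b : Module.Basis (Fin k) ℤ (𝓞 M))
    (J : Ideal (𝓞 M)) (bI : Module.Basis (Fin k) ℤ J) (c : ℚ) (z : Fin k → M)
    (hz : ∀ i, z i = ((c⁻¹ : ℚ) : M) * ((bI i : 𝓞 M) : M)) :
    Algebra.discr ℚ z = (c⁻¹ ^ k) ^ 2 * (Ideal.absNorm J : ℚ) ^ 2 * (discr M : ℚ) := by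
  classical
  obtain ⟨P, hP⟩ : ∃ P : Matrix (Fin k) (Fin k) ℚ,
    P = c⁻¹ • (b.toMatrix (fun i => (bI i : 𝓞 M))).map (Int.castRingHom ℚ) := ⟨_, rfl⟩
  have h1 : (fun i => ((b i : 𝓞 M) : M)) ᵥ* P.map (algebraMap ℚ M) = z := by
    funext j
    rw [Matrix.vecMul, dotProduct, hz j]
    have h2 : ((bI j : 𝓞 M) : M) = ∑ i, ((b.repr (bI j : 𝓞 M) i : ℤ) : M) * ((b i : 𝓞 M) : M) := by
      conv_lhs => rw [← b.sum_repr (bI j : 𝓞 M)]
      push_cast
      refine Finset.sum_congr rfl fun i _ => ?_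
      rw [zsmul_eq_mul]
    rw [h2, Finset.mul_sum]
    refine Finset.sum_congr rfl fun i _ => ?_
    rw [hP]
    simp only [Matrix.map_apply, Matrix.smul_apply, Module.Basis.toMatrix_apply, smul_eq_mul,
      map_mul, eq_ratCast, Int.coe_castRingHom, Rat.cast_intCast]
    ring
  have h3 : Algebra.discr ℚ (fun i => ((b i : 𝓞 M) : M)) = (discr M : ℚ) := by
    have h4 : Algebra.discr ℚ (b.localizationLocalization ℚ (nonZeroDivisors ℤ) M) =
        algebraMap ℤ ℚ (Algebra.discr ℤ b) :=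
      Algebra.discr_localizationLocalization ℤ (nonZeroDivisors ℤ) M b
    rw [discr_eq_discr] at h4
    rw [← eq_intCast (algebraMap ℤ ℚ), ← h4]
    congr 1
    funext i
    rw [Module.Basis.localizationLocalization_apply]
  have h5 : P.det ^ 2 = (c⁻¹ ^ k) ^ 2 * (Ideal.absNorm J : ℚ) ^ 2 := by
    rw [hP, Matrix.det_smul, Fintype.card_fin, mul_pow]
    congr 1
    have h6 := Ideal.natAbs_det_basis_change b J bI
    have h7 : ((b.toMatrix (fun i => (bI i : 𝓞 M))).map (Int.castRingHom ℚ)).det =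
        ((b.det ((↑) ∘ bI) : ℤ) : ℚ) := by
      rw [Module.Basis.det_apply, ← RingHom.mapMatrix_apply, ← RingHom.map_det]
      rfl
    rw [h7, ← h6, Nat.cast_natAbs, Int.cast_abs, sq_abs]
  rw [← h1, Algebra.discr_of_matrix_vecMul, h3, h5]

/-- the ideal of the elements bounded by `c t` -/
def JI {M : Type} [Field M] [NumberField M] (t : FinitePlace M → ℝ) (ht : ∀ v, 0 < t v) (c : ℕ) :
    Ideal (𝓞 M) where
  carrier := {x | ∀ v : FinitePlace M, v ((x : 𝓞 M) : M) ≤ v (c : M) * t v}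
  add_mem' := by
    intro x y hx hy v
    have h := FinitePlace.add_le v (x : M) (y : M)
    push_cast
    exact h.trans (max_le (hx v) (hy v))
  zero_mem' := by
    intro v
    simp only [map_zero]
    exact mul_nonneg (apply_nonneg v _) (ht v).le
  smul_mem' := by
    intro u x hx v
    have h1 : v ((u : 𝓞 M) : M) ≤ 1 := by
      rw [← FinitePlace.norm_embedding_eq]
      exact FinitePlace.norm_le_one _ _ u
    have h2 : (((u • x : 𝓞 M)) : M) = (u : M) * (x : M) := by
      rw [smul_eq_mul]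
      push_cast
      rfl
    rw [h2, map_mul]
    calc v (u : M) * v (x : M) ≤ 1 * v (x : M) :=
          mul_le_mul_of_nonneg_right h1 (apply_nonneg v _)
      _ = v (x : M) := one_mul _
      _ ≤ _ := hx v

theorem finprod_le {ι : Type*} (f g : ι → ℝ) (hf : f.mulSupport.Finite) (hg : g.mulSupport.Finite)
    (h0 : ∀ i, 0 ≤ f i) (h : ∀ i, f i ≤ g i) : ∏ᶠ i, f i ≤ ∏ᶠ i, g i := by
  classical
  have h1 : f.mulSupport ⊆ ((hf.toFinset ∪ hg.toFinset : Finset ι) : Set ι) := by
    intro i hi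
    rw [Finset.mem_coe, Finset.mem_union]
    exact Or.inl (hf.mem_toFinset.mpr hi)
  have h2 : g.mulSupport ⊆ ((hf.toFinset ∪ hg.toFinset : Finset ι) : Set ι) := by
    intro i hi
    rw [Finset.mem_coe, Finset.mem_union]
    exact Or.inr (hg.mem_toFinset.mpr hi)
  rw [finprod_eq_prod_of_mulSupport_subset f h1, finprod_eq_prod_of_mulSupport_subset g h2]
  exact Finset.prod_le_prod (fun i _ => h0 i) fun i _ => h i

end Pool.Agent.H86.REM.LTV

namespace Pool.Agent.H86.REM

open NumberField Height Finset Polynomial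
open Pool.Agent.H26.REM

theorem pf_LTV (hLTF : T_LTF) : T_LTV := by
  classical
  intro M _ _ t ht hfin w hw k z hz
  obtain ⟨hz1, hz2, hz3⟩ := hz
  obtain ⟨hmem, -, -⟩ := hLTF M t ht hfin
  have hk : k = Module.finrank ℚ M := by
    have hb : Module.Basis (Fin k) ℚ M := Module.Basis.mk hz1 (by rw [hz2])
    rw [Module.finrank_eq_card_basis hb, Fintype.card_fin]
  have hk0 : 0 < k := by
    rw [hk]
    exact Module.finrank_pos
  have hne : Nonempty (Fin k) := ⟨⟨0, hk0⟩⟩
  -- a common denominator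
  obtain ⟨c, hc0, hc⟩ : ∃ c : ℕ, c ≠ 0 ∧ ∀ i, ∃ y : 𝓞 M, (y : M) = (c : M) * z i := by
    obtain ⟨y, hy, hy'⟩ := exists_integral_multiples ℤ ℚ (Finset.univ.image z)
    refine ⟨y.natAbs, Int.natAbs_ne_zero.mpr hy, fun i => ?_⟩
    have h1 := hy' (z i) (Finset.mem_image_of_mem z (Finset.mem_univ i))
    have h2 : IsIntegral ℤ ((y.natAbs : M) * z i) := by
      rcases Int.natAbs_eq y with h | h
      · rw [h, zsmul_eq_mul] at h1
        simpa using h1
      · rw [h, zsmul_eq_mul] at h1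
        have := h1.neg
        simpa using this
    exact ⟨⟨_, h2⟩, rfl⟩
  choose y hy using hc
  have hcM : (c : M) ≠ 0 := by exact_mod_cast hc0
  have hzt : ∀ i (v : FinitePlace M), v (z i) ≤ t v := by
    intro i v
    have h1 : z i ∈ LT M t := ((hz3 (z i)).mp (Submodule.subset_span ⟨i, rfl⟩)).1
    exact (hmem (z i)).mp h1 v
  -- the ideal
  have hyJ : ∀ i, y i ∈ LTV.JI t ht c := by
    intro i v
    rw [hy i, map_mul]
    exact mul_le_mul_of_nonneg_left (hzt i v) (apply_nonneg v _)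
  have hJz : ∀ x : 𝓞 M, x ∈ LTV.JI t ht c → x ∈ Submodule.span ℤ (Set.range y) := by
    intro x hx
    have h1 : (x : M) / c ∈ Submodule.span ℤ (Set.range z) := by
      rw [hz3]
      refine ⟨(hmem _).mpr fun v => ?_, Submodule.mem_top⟩
      change v ((x : M) / c) ≤ t v
      rw [map_div₀, div_le_iff₀ (FinitePlace.pos_iff.mpr hcM), mul_comm]
      exact hx v
    rw [Submodule.mem_span_range_iff_exists_fun] at h1 ⊢
    obtain ⟨n, hn⟩ := h1
    refine ⟨n, ?_⟩
    apply RingOfIntegers.ext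
    have h2 : (x : M) = (c : M) * ∑ i, n i • z i := by
      rw [hn]
      field_simp
    rw [h2, Finset.mul_sum]
    change (algebraMap (𝓞 M) M) (∑ i, n i • y i) = _
    rw [map_sum]
    refine Finset.sum_congr rfl fun i _ => ?_
    have hyi : (algebraMap (𝓞 M) M) (y i) = (c : M) * z i := hy i
    rw [map_zsmul, hyi, zsmul_eq_mul, zsmul_eq_mul]
    ring
  have hli : LinearIndependent ℤ y := by
    rw [Fintype.linearIndependent_iff]
    intro n hn i
    have h1 : ∑ i, (n i : ℚ) • z i = 0 := by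
      have h2 := congrArg (fun u : 𝓞 M => (u : M)) hn
      simp only [map_sum, map_zero] at h2
      have h3 : (c : M) * ∑ i, (n i : ℚ) • z i = 0 := by
        rw [← h2, Finset.mul_sum]
        refine Finset.sum_congr rfl fun i _ => ?_
        have hyi : (algebraMap (𝓞 M) M) (y i) = (c : M) * z i := hy i
        rw [map_zsmul, hyi, Rat.smul_def, zsmul_eq_mul]
        push_cast
        ring
      exact (mul_eq_zero.mp h3).resolve_left hcM
    have h4 := Fintype.linearIndependent_iff.mp hz1 (fun i => (n i : ℚ)) h1 i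
    exact_mod_cast h4
  obtain ⟨J, hJ⟩ : ∃ J : Ideal (𝓞 M), J = LTV.JI t ht c := ⟨_, rfl⟩
  rw [← hJ] at hyJ hJz
  have hli' : LinearIndependent ℤ (fun i => (⟨y i, hyJ i⟩ : J)) := by
    refine LinearIndependent.of_comp ((Submodule.subtype J).restrictScalars ℤ) ?_
    exact hli
  have hsp : ⊤ ≤ Submodule.span ℤ (Set.range fun i => (⟨y i, hyJ i⟩ : J)) := by
    rintro ⟨x, hx⟩ -
    have h1 := hJz x hx
    rw [Submodule.mem_span_range_iff_exists_fun] at h1 ⊢
    obtain ⟨n, hn⟩ := h1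
    refine ⟨n, ?_⟩
    apply Subtype.ext
    simp only [AddSubmonoidClass.coe_finsetSum]
    exact hn
  let bI : Module.Basis (Fin k) ℤ J := Module.Basis.mk hli' hsp
  have hbI : ∀ i, (bI i : 𝓞 M) = y i := by
    intro i
    simp [bI]
  obtain ⟨eb⟩ : Nonempty (Module.Free.ChooseBasisIndex ℤ (𝓞 M) ≃ Fin k) := by
    refine ⟨Fintype.equivOfCardEq ?_⟩
    rw [Fintype.card_fin, ← Module.finrank_eq_card_chooseBasisIndex, RingOfIntegers.rank, hk]
  let b : Module.Basis (Fin k) ℤ (𝓞 M) := (RingOfIntegers.basis M).reindex eb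
  have hdisc := LTV.discr_eq b J bI (c : ℚ) z (by
    intro i
    rw [hbI, hy]
    push_cast
    field_simp)
  -- the norm of the ideal
  have hspan : Ideal.span (Set.range y) = J := by
    apply le_antisymm
    · rw [Ideal.span_le]
      rintro _ ⟨i, rfl⟩
      exact hyJ i
    · intro x hx
      have h1 := hJz x hx
      rw [Submodule.mem_span_range_iff_exists_fun] at h1
      obtain ⟨n, hn⟩ := h1
      rw [← hn]
      refine Ideal.sum_mem _ fun i _ => ?_
      rw [zsmul_eq_mul]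
      exact Ideal.mul_mem_left _ _ (Ideal.subset_span ⟨i, rfl⟩)
  have hy0 : ∀ i, y i ≠ 0 := fun i => hli.ne_zero i
  have hy00 : y ≠ 0 := by
    intro h
    exact hy0 (Classical.arbitrary _) (congrFun h _)
  have hnorm := absNorm_mul_finprod_finitePlace_eq_one hy00
  rw [hspan] at hnorm
  have hfc := FinitePlace.hasFiniteMulSupport hcM
  have hft : (Function.mulSupport t).Finite := hfin
  have hsup : ∏ᶠ v : FinitePlace M, ⨆ i, v (y i : M) ≤ ((c : ℝ) ^ k)⁻¹ * ∏ᶠ v, t v := by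
    have h1 : ∏ᶠ v : FinitePlace M, v (c : M) * t v = ((c : ℝ) ^ k)⁻¹ * ∏ᶠ v, t v := by
      rw [finprod_mul_distrib hfc hft, FinitePlace.prod_eq_inv_abs_norm hcM]
      congr 1
      have h2 : (Algebra.norm ℚ) (c : M) = (c : ℚ) ^ k := by
        have h3 := Algebra.norm_algebraMap (S := M) (c : ℚ)
        rw [← hk] at h3
        simpa using h3
      rw [h2]
      push_cast
      rw [abs_of_nonneg (by positivity)]
    rw [← h1]
    refine LTV.finprod_le _ _ ?_ ?_ ?_ ?_
    · exact Function.HasFiniteMulSupport.iSup fun i =>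
        FinitePlace.hasFiniteMulSupport (by
          intro h
          exact hy0 i (RingOfIntegers.ext h))
    · exact Function.HasFiniteMulSupport.mul hfc hft
    · exact fun v => Real.iSup_nonneg fun i => apply_nonneg v _
    · intro v
      refine ciSup_le fun i => ?_
      have h5 := hyJ i
      rw [hJ] at h5
      exact h5 v
  -- the numbers
  obtain ⟨A, hA⟩ : ∃ A : ℝ, A = ∏ᶠ v : FinitePlace M, ⨆ i, v (y i : M) := ⟨_, rfl⟩
  obtain ⟨B, hB⟩ : ∃ B : ℝ, B = ∏ᶠ v, t v := ⟨_, rfl⟩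
  rw [← hA] at hnorm hsup
  rw [← hB] at hsup
  have hcR : (0 : ℝ) < c := by exact_mod_cast Nat.pos_of_ne_zero hc0
  have hN0 : (0 : ℝ) ≤ (Ideal.absNorm J : ℝ) := Nat.cast_nonneg _
  have hN1 : (Ideal.absNorm J : ℝ) ≠ 0 := left_ne_zero_of_mul_eq_one hnorm
  have hNp : (0 : ℝ) < (Ideal.absNorm J : ℝ) := lt_of_le_of_ne hN0 (Ne.symm hN1)
  have hAp : 0 < A := by
    by_contra h
    have := mul_nonpos_of_nonneg_of_nonpos hN0 (not_lt.mp h)
    rw [hnorm] at this
    linarith
  have hBp : 0 < B := by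
    have h1 := hAp.trans_le hsup
    have h2 : 0 < ((c : ℝ) ^ k)⁻¹ := by positivity
    exact (pos_iff_pos_of_mul_pos h1).mp h2
  have hmain : B⁻¹ ≤ ((c : ℝ)⁻¹ ^ k) * (Ideal.absNorm J : ℝ) := by
    have h1 : (Ideal.absNorm J : ℝ) = A⁻¹ := by
      field_simp
      exact hnorm
    rw [h1, inv_pow]
    rw [← div_eq_mul_inv, le_div_iff₀ hAp, inv_mul_le_iff₀ hBp, mul_comm B]
    exact hsup
  rw [LTV.GD_eq w hk z, hdisc, mul_comm |(discr M : ℝ)|, mul_assoc]
  refine mul_le_mul_of_nonneg_left ?_ (sq_nonneg _)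
  push_cast
  rw [abs_mul, ← hB, mul_comm |(discr M : ℝ)|]
  refine mul_le_mul_of_nonneg_right ?_ (abs_nonneg _)
  rw [← mul_pow, abs_of_nonneg (sq_nonneg _), ← inv_pow]
  exact pow_le_pow_left₀ (by positivity) hmain 2

end Pool.Agent.H86.REM
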