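import Pool.Agent.H26.REM.Targets

/-!
# Board rcl_modules, row HTY: the height of a tuple of monomials
-/

set_option autoImplicit false

namespace Pool.Agent.H86.REM.HTY

open NumberField Height Finset
open Pool.Agent.H26.REM

theorem powTuple {M : Type} [Field M] [NumberField M] (x : M) (n : ℕ) :
    logHeight (fun j : Fin (n + 1) => x ^ (j : ℕ)) ≤ n * logHeight₁ x := by
  have hx : ∀ _ : Fin n, (![x, 1] : Fin 2 → M) ≠ 0 := by
    intro _ h
    have := congrFun h 1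
    simp at this
  have h1 := logHeight_fun_prod_eq (K := M) (α := Fin n) (ι := fun _ => Fin 2)
    (x := fun _ => ![x, 1]) hx
  rw [Finset.sum_const, Finset.card_univ, Fintype.card_fin, nsmul_eq_mul,
    ← logHeight₁_eq_logHeight] at h1
  rw [← h1]
  have h2 : (fun j : Fin (n + 1) => x ^ (j : ℕ)) =
      (fun I : (Fin n → Fin 2) => ∏ a, (![x, 1] : Fin 2 → M) (I a)) ∘
        (fun j : Fin (n + 1) => fun a : Fin n => if (a : ℕ) < j then (0 : Fin 2) else 1) := by
    funext j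
    simp only [Function.comp]
    have h3 : ∀ a : Fin n, (![x, 1] : Fin 2 → M) (if (a : ℕ) < j then (0 : Fin 2) else 1) =
        if (a : ℕ) < j then x else 1 := by
      intro a
      split_ifs <;> simp
    rw [Finset.prod_congr rfl fun a _ => h3 a, Finset.prod_ite, Finset.prod_const,
      Finset.prod_const_one, mul_one]
    congr 1
    have h4 : (Finset.univ.filter fun a : Fin n => (a : ℕ) < j).card = (j : ℕ) := by
      rw [Fin.card_filter_val_lt]
      have := j.2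
      omega
    exact h4.symm
  rw [h2]
  exact logHeight_comp_le _ _

theorem zpowTuple {M : Type} [Field M] [NumberField M] (x : M) (hx : x ≠ 0) (n : ℕ) :
    logHeight (fun j : Fin (2 * n + 1) => x ^ ((j : ℤ) - n)) ≤ 2 * n * logHeight₁ x := by
  have h1 : (fun j : Fin (2 * n + 1) => x ^ ((j : ℤ) - n)) =
      (x ^ (-(n : ℤ))) • (fun j : Fin (2 * n + 1) => x ^ (j : ℕ)) := by
    funext j
    rw [Pi.smul_apply, smul_eq_mul, ← zpow_natCast x (j : ℕ), ← zpow_add₀ hx]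
    congr 1
    ring
  rw [h1, logHeight_smul_eq_logHeight _ (zpow_ne_zero _ hx)]
  refine (powTuple x (2 * n)).trans_eq ?_
  push_cast
  ring

theorem mon_pow {M : Type} [Field M] {r : ℕ} (β : M) (θ : Fin r → M) (k : ℕ)
    (e : Fin r → ℤ) (hθ : ∀ i, θ i ≠ 0) (b : Fin (r + 1) → ℤ) :
    mon θ β b ^ k = (β ^ k * ∏ i, θ i ^ e i) ^ (b 0) *
      ∏ i, θ i ^ ((k : ℤ) * b i.succ - b 0 * e i) := by
  unfold mon
  rw [mul_pow, mul_zpow, ← Finset.prod_zpow, mul_assoc, ← Finset.prod_mul_distrib,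
    ← Finset.prod_pow]
  congr 1
  · rw [← zpow_natCast, ← zpow_natCast, ← zpow_mul, ← zpow_mul, mul_comm]
  · refine Finset.prod_congr rfl fun i _ => ?_
    rw [← zpow_natCast, ← zpow_mul, ← zpow_mul, ← zpow_add₀ (hθ i)]
    congr 1
    ring

end Pool.Agent.H86.REM.HTY

namespace Pool.Agent.H86.REM

open NumberField Height Finset Polynomial
open Pool.Agent.H26.REM

theorem pf_HTY : T_HTY := by
  intro M _ _ r β θ k e hβ hθ hk lam H hlam hH hA hθH ρ S hρ hS hb
  have hk' : (0 : ℝ) < k := by exact_mod_cast hk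
  obtain ⟨D, hD⟩ : ∃ D : ℝ, D = Module.finrank ℚ M := ⟨_, rfl⟩
  rw [← hD] at hA ⊢
  have hθH' : ∀ i, logHeight₁ (θ i) ≤ H i * D := by
    intro i
    rw [hD]
    exact hθH i
  have hD0 : 0 ≤ D := by
    rw [hD]
    exact Nat.cast_nonneg _
  obtain ⟨A, hAe⟩ : ∃ A : M, A = β ^ k * ∏ i, θ i ^ e i := ⟨_, rfl⟩
  have hA0 : A ≠ 0 := by
    rw [hAe]
    exact mul_ne_zero (pow_ne_zero _ hβ)
      (Finset.prod_ne_zero_iff.mpr fun i _ => zpow_ne_zero _ (hθ i))
  rw [← hAe] at hA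
  obtain ⟨g, hg⟩ : ∃ g : Fin (r + 1) → M, g = Fin.cons A θ := ⟨_, rfl⟩
  have hg0 : g 0 = A := by rw [hg, Fin.cons_zero]
  have hgs : ∀ i : Fin r, g i.succ = θ i := fun i => by rw [hg, Fin.cons_succ]
  have hgne : ∀ a, g a ≠ 0 := by
    intro a
    refine Fin.cases ?_ (fun i => ?_) a
    · rw [hg0]
      exact hA0
    · rw [hgs]
      exact hθ i
  obtain ⟨B, hB⟩ : ∃ B : Fin (r + 1) → ℕ,
    B = Fin.cons ⌊ρ / lam⌋₊ (fun i => ⌊k * ρ / H i⌋₊) := ⟨_, rfl⟩
  have hB0 : B 0 = ⌊ρ / lam⌋₊ := by rw [hB, Fin.cons_zero]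
  have hBs : ∀ i : Fin r, B i.succ = ⌊k * ρ / H i⌋₊ := fun i => by rw [hB, Fin.cons_succ]
  obtain ⟨c, hc⟩ : ∃ c : (Fin (r + 1) → ℤ) → Fin (r + 1) → ℤ,
    ∀ b, c b = Fin.cons (b 0) (fun i => (k : ℤ) * b i.succ - b 0 * e i) := ⟨_, fun b => rfl⟩
  have hc0 : ∀ b, c b 0 = b 0 := fun b => by rw [hc, Fin.cons_zero]
  have hcs : ∀ b (i : Fin r), c b i.succ = (k : ℤ) * b i.succ - b 0 * e i :=
    fun b i => by rw [hc, Fin.cons_succ]
  have hmon : ∀ b, mon θ β b ^ k = ∏ a, g a ^ (c b a) := by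
    intro b
    rw [HTY.mon_pow β θ k e hθ b, Fin.prod_univ_succ, hg0, hc0, hAe]
    congr 1
    refine Finset.prod_congr rfl fun i _ => ?_
    rw [hgs, hcs]
  -- the exponents are bounded
  have hcB : ∀ b ∈ S, ∀ a, |c b a| ≤ (B a : ℤ) := by
    intro b hbS a
    have h1 := hb b hbS
    unfold nrH at h1
    have h2 : 0 ≤ |(b 0 : ℝ)| * lam := mul_nonneg (abs_nonneg _) hlam.le
    have h3 : ∀ i ∈ (Finset.univ : Finset (Fin r)),
        0 ≤ H i * |(b i.succ : ℝ) - b 0 * ((e i : ℝ) / k)| :=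
      fun i _ => mul_nonneg (hH i).le (abs_nonneg _)
    have h4 : ∀ (z : ℤ) (x : ℝ), |(z : ℝ)| ≤ x → |z| ≤ ((⌊x⌋₊ : ℕ) : ℤ) := by
      intro z x hz
      have h5 : ((|z|.toNat : ℕ) : ℤ) = |z| := Int.toNat_of_nonneg (abs_nonneg z)
      rw [← h5]
      have h6 : |z|.toNat ≤ ⌊x⌋₊ := by
        apply Nat.le_floor
        have h7 : ((|z|.toNat : ℕ) : ℝ) = |(z : ℝ)| := by
          have h8 : (((|z|.toNat : ℕ) : ℤ) : ℝ) = ((|z| : ℤ) : ℝ) := by rw [h5]
          rw [Int.cast_natCast, Int.cast_abs] at h8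
          exact h8
        rw [h7]
        exact hz
      exact_mod_cast h6
    refine Fin.cases ?_ (fun i => ?_) a
    · rw [hc0, hB0]
      apply h4
      rw [le_div_iff₀ hlam]
      exact (le_add_of_nonneg_right (Finset.sum_nonneg h3)).trans h1
    · rw [hcs, hBs]
      apply h4
      have h5 : H i * |(b i.succ : ℝ) - b 0 * ((e i : ℝ) / k)| ≤ ρ :=
        (Finset.single_le_sum h3 (Finset.mem_univ i)).trans
          ((le_add_of_nonneg_left h2).trans h1)
      rw [le_div_iff₀ (hH i)]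
      have h6 : |(((k : ℤ) * b i.succ - b 0 * e i : ℤ) : ℝ)| =
          k * |(b i.succ : ℝ) - b 0 * ((e i : ℝ) / k)| := by
        rw [← abs_of_pos hk', ← abs_mul, abs_of_pos hk']
        congr 1
        push_cast
        field_simp
      rw [h6]
      calc k * |(b i.succ : ℝ) - b 0 * ((e i : ℝ) / k)| * H i
          = k * (H i * |(b i.succ : ℝ) - b 0 * ((e i : ℝ) / k)|) := by ring
        _ ≤ k * ρ := mul_le_mul_of_nonneg_left h5 hk'.le
  -- the tuple
  have hlt : ∀ b ∈ S, ∀ a, (c b a + B a).toNat < 2 * B a + 1 := by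
    intro b hbS a
    have h1 := abs_le.mp (hcB b hbS a)
    have h2 : 0 ≤ c b a + B a := by linarith [h1.1]
    omega
  have hX : ∀ a, (fun j : Fin (2 * B a + 1) => g a ^ ((j : ℤ) - B a)) ≠ 0 := by
    intro a h
    have := congrFun h 0
    exact zpow_ne_zero _ (hgne a) this
  have h1 := logHeight_fun_prod_eq (K := M) (α := Fin (r + 1)) (ι := fun a => Fin (2 * B a + 1))
    (x := fun a j => g a ^ ((j : ℤ) - B a)) hX
  have h2 : (fun b : S => mon θ β (b : Fin (r + 1) → ℤ)) ^ k =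
      (fun I : ((a : Fin (r + 1)) → Fin (2 * B a + 1)) => ∏ a, g a ^ (((I a : ℕ) : ℤ) - B a)) ∘
        (fun b : S => fun a => ⟨(c b a + B a).toNat, hlt b b.2 a⟩) := by
    funext b
    rw [Pi.pow_apply, hmon]
    simp only [Function.comp]
    refine Finset.prod_congr rfl fun a _ => ?_
    congr 1
    have h1 := abs_le.mp (hcB b b.2 a)
    rw [Int.toNat_of_nonneg (by linarith [h1.1])]
    ring
  have h3 : (k : ℝ) * logHeight (fun b : S => mon θ β (b : Fin (r + 1) → ℤ)) ≤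
      ∑ a, 2 * (B a : ℝ) * logHeight₁ (g a) := by
    rw [← logHeight_pow, h2]
    refine (logHeight_comp_le _ _).trans ?_
    rw [h1]
    exact Finset.sum_le_sum fun a _ => HTY.zpowTuple (g a) (hgne a) (B a)
  have h4 : ∀ a, 2 * (B a : ℝ) * logHeight₁ (g a) ≤ 2 * (k * ρ * D) := by
    intro a
    rw [mul_assoc]
    refine mul_le_mul_of_nonneg_left ?_ (by norm_num)
    refine Fin.cases ?_ (fun i => ?_) a
    · rw [hB0, hg0]
      have h5 : ((⌊ρ / lam⌋₊ : ℕ) : ℝ) ≤ ρ / lam := Nat.floor_le (div_nonneg hρ hlam.le)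
      calc ((⌊ρ / lam⌋₊ : ℕ) : ℝ) * logHeight₁ A ≤ (ρ / lam) * (k * lam * D) :=
            mul_le_mul h5 hA (zero_le_logHeight₁ _) (div_nonneg hρ hlam.le)
        _ = k * ρ * D := by
            field_simp
    · rw [hBs, hgs]
      have h5 : ((⌊k * ρ / H i⌋₊ : ℕ) : ℝ) ≤ k * ρ / H i :=
        Nat.floor_le (div_nonneg (mul_nonneg hk'.le hρ) (hH i).le)
      have h6 := (hH i).ne'
      calc ((⌊k * ρ / H i⌋₊ : ℕ) : ℝ) * logHeight₁ (θ i) ≤ (k * ρ / H i) * (H i * D) :=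
            mul_le_mul h5 (hθH' i) (zero_le_logHeight₁ _)
              (div_nonneg (mul_nonneg hk'.le hρ) (hH i).le)
        _ = k * ρ * D := by
            field_simp
  have h5 : (k : ℝ) * logHeight (fun b : S => mon θ β (b : Fin (r + 1) → ℤ)) ≤
      k * (2 * (r + 1) * ρ * D) := by
    refine h3.trans ((Finset.sum_le_sum fun a _ => h4 a).trans_eq ?_)
    rw [Finset.sum_const, Finset.card_univ, Fintype.card_fin, nsmul_eq_mul]
    push_cast
    ring
  exact le_of_mul_le_mul_left h5 hk'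

end Pool.Agent.H86.REM
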